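import Pool.Agent.helper68.AM.SpecX

set_option autoImplicit false

namespace AM

open Pool.Agent.helper72.Sq Matrix

lemma XW3_id (A B : SpecialLinearGroup (Fin 2) ℝ) :
    tr (A ^ 4 * B ^ 2) =
      (2 - tr (A * B * A⁻¹ * B⁻¹)) * tr A ^ 2 + tr (A ^ 2 * B) ^ 2 - 2 := by
  have hv : tr (A ^ 2 * B) = tr A * tr (A * B) - tr B := by
    rw [pow_two, mul_assoc]; exact tr_mul_mul A B
  have h0 : tr (B ^ 2) = tr B ^ 2 - 2 := by
    have h := tr_mul_mul B 1
    rw [mul_one] at h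
    have h1 : tr (1 : SpecialLinearGroup (Fin 2) ℝ) = 2 := by
      unfold tr; simp; norm_num
    rw [pow_two, h, h1]; ring
  have h1 : tr (A * B ^ 2) = tr B * tr (A * B) - tr A := by
    have h := tr_mul_mul B A
    rw [tr_comm B A] at h
    rw [tr_comm, pow_two, mul_assoc, h]
  have h2 : tr (A ^ 2 * B ^ 2) = tr A * tr (A * B ^ 2) - tr (B ^ 2) := by
    have h := tr_mul_mul A (B ^ 2)
    rw [← h]; congr 1; rw [← mul_assoc, ← pow_two]
  have h3 : tr (A ^ 3 * B ^ 2) = tr A * tr (A ^ 2 * B ^ 2) - tr (A * B ^ 2) := by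
    have h := tr_mul_mul A (A * B ^ 2)
    have e2 : A * (A * B ^ 2) = A ^ 2 * B ^ 2 := by rw [← mul_assoc, ← pow_two]
    have e1 : A * (A * (A * B ^ 2)) = A ^ 3 * B ^ 2 := by
      rw [e2, ← mul_assoc, ← pow_succ']
    rw [e1, e2] at h
    exact h
  have h4 : tr (A ^ 4 * B ^ 2) = tr A * tr (A ^ 3 * B ^ 2) - tr (A ^ 2 * B ^ 2) := by
    have h := tr_mul_mul A (A ^ 2 * B ^ 2)
    have e2 : A * (A ^ 2 * B ^ 2) = A ^ 3 * B ^ 2 := by rw [← mul_assoc, ← pow_succ']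
    have e1 : A * (A * (A ^ 2 * B ^ 2)) = A ^ 4 * B ^ 2 := by
      rw [e2, ← mul_assoc, ← pow_succ']
    rw [e1, e2] at h
    exact h
  rw [h4, h3, h2, h1, h0, hv, tr_commutator]
  ring

lemma XW3_gl (ρ : F2 →* SpecialLinearGroup (Fin 2) ℝ) (g : F2) (h : 2 ≤ tr (ρ g)) :
    gLen ρ g = len (tr (ρ g)) := by
  unfold gLen len; rw [abs_of_pos (by linarith)]

/-- squares: `m² ≤ T ≤ c m²` gives `len T` close to `2 len m` -/
lemma XW3_sq {m T c : ℝ} (hm : 2 ≤ m) (hc : 1 ≤ c) (h1 : m ^ 2 ≤ T) (h2 : T ≤ c * m ^ 2) :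
    |len T - 2 * len m| ≤ 2 * Real.log c + 4 * Real.log 2 := by
  have hT : 2 ≤ T := by nlinarith
  have a1 := len_le_two_log hT
  have a2 := two_log_le_len hT
  have a3 := len_le_two_log hm
  have a4 := two_log_le_len hm
  have hm0 : 0 < m := by linarith
  have hT0 : 0 < T := by linarith
  rw [Real.log_div (by positivity) (by norm_num)] at a2 a4
  have b1 : Real.log T ≤ Real.log c + 2 * Real.log m := by
    have := Real.log_le_log hT0 h2
    rw [Real.log_mul (by positivity) (by positivity), Real.log_pow] at this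
    push_cast at this
    linarith
  have b2 : 2 * Real.log m ≤ Real.log T := by
    have := Real.log_le_log (by positivity) h1
    rw [Real.log_pow] at this
    push_cast at this
    linarith
  have b3 : 0 ≤ Real.log c := Real.log_nonneg hc
  have b4 : 0 < Real.log 2 := Real.log_pos (by norm_num)
  rw [abs_le]
  constructor <;> linarith

theorem XW3 (hXE : XE_stmt) : XW3_stmt := by
  intro ρ hA
  have hk : 0 < kap (trTri ρ (ga, gb)) := hA.kpos
  refine ⟨2 * Real.log (5 + kap (trTri ρ (ga, gb))) + 4 * Real.log 2, ?_⟩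
  intro φ hφ
  obtain ⟨hx, -, -, -, hτ⟩ := hXE ρ hA φ hφ
  have htA : twA ∈ MCG := Subgroup.subset_closure (by simp)
  have hv : 2 < tr (ρ (φ (ga ^ 2 * gb))) := by
    have h := (hXE ρ hA (φ * (twA * twA)) (MCG.mul_mem hφ (MCG.mul_mem htA htA))).2.1
    have e : (φ * (twA * twA)) gb = φ (ga ^ 2 * gb) := by
      rw [MulAut.mul_apply, MulAut.mul_apply, twA_b, map_mul twA, twA_a, twA_b, pow_two, mul_assoc]
    rwa [e] at h
  have hT := XW3_id (ρ (φ ga)) (ρ (φ gb))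
  rw [hτ] at hT
  have e1 : ρ (φ ga) ^ 4 * ρ (φ gb) ^ 2 = ρ (φ (ga ^ 4 * gb ^ 2)) := by
    simp only [map_mul, map_pow]
  have e2 : ρ (φ ga) ^ 2 * ρ (φ gb) = ρ (φ (ga ^ 2 * gb)) := by
    simp only [map_mul, map_pow]
  rw [e1, e2] at hT
  set x := tr (ρ (φ ga)) with hxd
  set v := tr (ρ (φ (ga ^ 2 * gb))) with hvd
  set K := kap (trTri ρ (ga, gb)) with hK
  have hT2 : 2 ≤ tr (ρ (φ (ga ^ 4 * gb ^ 2))) := by rw [hT]; nlinarith
  rw [XW3_gl ρ _ hT2, XW3_gl ρ (φ ga) hx.le, XW3_gl ρ (φ (ga ^ 2 * gb)) hv.le]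
  rw [← hxd, ← hvd]
  rcases le_total x v with hxv | hxv
  · rw [max_eq_right (len_mono hx.le hxv)]
    refine XW3_sq hv.le (by linarith) ?_ ?_
    · rw [hT]; nlinarith
    · rw [hT]
      have : x ^ 2 ≤ v ^ 2 := by nlinarith
      nlinarith [mul_nonneg hk.le (sub_nonneg.2 this)]
  · rw [max_eq_left (len_mono hv.le hxv)]
    refine XW3_sq hx.le (by linarith) ?_ ?_
    · rw [hT]; nlinarith [mul_nonneg hk.le (sq_nonneg x)]
    · rw [hT]
      have : v ^ 2 ≤ x ^ 2 := by nlinarith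
      nlinarith

end AM
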